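import Pool.Agent.Results.MP_fa2474_nt.GenericShifts
import Pool.Agent.Results.MP_fa2474_nt.HalfFixedShifts

/-!
# Shifted moments of zeta for the shifts in almost all directions

Let `v_n ≥ 1` be a sequence with `∑ v_n ^ (-δ)` finite, for instance `v_n = b ^ n`, `b > 1`. The shift vectors `v_n γ` run
through a ray. For almost all `γ ∈ [0, ∞) ^ (2k)` the recipe of Conrey, Farmer, Keating, Rubinstein and Snaith holds with
a power saving for the shifts `v_n γ`, for all integrals over `[0, S]`, `S ≤ A v_n`; and for `k ≤ 4` this remains true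
if the vector `α` is fixed and only `β` runs through a ray, for almost all directions of `β ∈ [0, ∞) ^ k` and all `α` of a
given countable set at once.
-/

set_option autoImplicit false

open Complex MeasureTheory Filter

open scoped ENNReal

namespace Pool.Agent.Results.MP_fa2474_nt.AlmostAllDirections

open Pool.Agent.Results.MP_fa2474_nt.GenericShifts (Z Q zetaAB)

noncomputable section

/-- Borel–Cantelli for the dilates of a vector and sets with a power saving -/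
lemma core {ι : Type} [Fintype ι] {δ T₀ : ℝ} {v : ℕ → ℝ} (hv : ∀ n, 1 ≤ v n)
    (hs : Summable fun n => (v n) ^ (-δ)) (A : ℕ) (hA : 1 ≤ A) (B : ℕ → Set (ι → ℝ))
    (hB : ∀ n, T₀ ≤ A * v n → volume (B n) ≤ ENNReal.ofReal ((A * v n) ^ (Fintype.card ι - δ : ℝ))) :
    ∀ᵐ x : ι → ℝ, ∀ᶠ n in atTop, T₀ ≤ A * v n → v n • x ∉ B n := by
  classical
  have hA0 : (0 : ℝ) < A := by exact_mod_cast hA
  have hvp : ∀ n, 0 < v n := fun n => lt_of_lt_of_le one_pos (hv n)
  set W : ℕ → Set (ι → ℝ) := fun n => if T₀ ≤ A * v n then (fun x : ι → ℝ => v n • x) ⁻¹' (B n) else ∅ with hW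
  have hU : ∀ n, volume (W n) ≤ ENNReal.ofReal ((A : ℝ) ^ (Fintype.card ι - δ : ℝ) * (v n) ^ (-δ)) := by
    intro n
    rw [hW]
    simp only
    split_ifs with h
    · rw [Measure.addHaar_preimage_smul volume (hvp n).ne', Module.finrank_fintype_fun_eq_card,
        abs_of_nonneg (by have := hvp n; positivity)]
      calc ENNReal.ofReal ((v n ^ Fintype.card ι)⁻¹) * volume (B n)
          ≤ ENNReal.ofReal ((v n ^ Fintype.card ι)⁻¹) * ENNReal.ofReal ((A * v n) ^ (Fintype.card ι - δ : ℝ)) := by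
            gcongr
            exact hB n h
        _ = ENNReal.ofReal ((v n ^ Fintype.card ι)⁻¹ * (A * v n) ^ (Fintype.card ι - δ : ℝ)) := by
            rw [ENNReal.ofReal_mul (by have := hvp n; positivity)]
        _ = _ := by
            congr 1
            have h0 := hvp n
            rw [Real.mul_rpow hA0.le h0.le, Real.rpow_sub h0, Real.rpow_natCast, Real.rpow_neg h0.le]
            field_simp
    · simp
  have hsum : ∑' n, volume (W n) ≠ ∞ := by
    have h1 : Summable (fun n => (A : ℝ) ^ (Fintype.card ι - δ : ℝ) * (v n) ^ (-δ)) := hs.mul_left _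
    have h2 : ∑' n, ENNReal.ofReal ((A : ℝ) ^ (Fintype.card ι - δ : ℝ) * (v n) ^ (-δ)) ≠ ∞ := by
      rw [← ENNReal.ofReal_tsum_of_nonneg (fun n => by have := hvp n; positivity) h1]
      exact ENNReal.ofReal_ne_top
    exact ne_top_of_le_ne_top h2 (ENNReal.tsum_le_tsum hU)
  filter_upwards [ae_eventually_notMem hsum] with x hx
  filter_upwards [hx] with n hn hT hmem
  apply hn
  rw [hW]
  simp only [hT, if_true]
  exact hmem

lemma tendsto_v {δ : ℝ} (hδ : 0 < δ) {v : ℕ → ℝ} (hv : ∀ n, 1 ≤ v n) (hs : Summable fun n => (v n) ^ (-δ)) :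
    Tendsto v atTop atTop := by
  have h1 := hs.tendsto_atTop_zero
  rw [tendsto_atTop]
  intro K
  have hK : (0 : ℝ) < (max K 1) ^ (-δ) := Real.rpow_pos_of_pos (lt_of_lt_of_le one_pos (le_max_right _ _)) _
  filter_upwards [h1.eventually_lt_const hK] with n hn
  by_contra hcon
  push Not at hcon
  have h2 : (max K 1) ^ (-δ) ≤ (v n) ^ (-δ) := by
    apply Real.rpow_le_rpow_of_nonpos (lt_of_lt_of_le one_pos (hv n)) _ (by linarith)
    exact hcon.le.trans (le_max_left _ _)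
  linarith

lemma summable_of {δ : ℝ} (hδ : 0 < δ) {v : ℕ → ℝ} (hv : ∀ n, 1 ≤ v n) (hs : Summable fun n => (v n) ^ (-(δ / 2))) :
    Summable fun n => (v n) ^ (-δ) := by
  refine Summable.of_nonneg_of_le (fun n => Real.rpow_nonneg (by linarith [hv n]) _) (fun n => ?_) hs
  exact Real.rpow_le_rpow_of_exponent_le (hv n) (by linarith)

/-- the bound at `A v_n` is smaller than the bound of the theorem -/
lemma final_bound {δ : ℝ} (hδ : 0 < δ) {v : ℕ → ℝ} (hv : ∀ n, 1 ≤ v n) (ht : Tendsto v atTop atTop) (A : ℕ) :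
    ∀ᶠ n in atTop, ((A : ℝ) * v n) ^ (1 - δ) ≤ (v n) ^ (1 - δ / 2) := by
  have h1 : Tendsto (fun n => (v n) ^ (δ / 2)) atTop atTop := (tendsto_rpow_atTop (by linarith)).comp ht
  filter_upwards [h1.eventually_ge_atTop ((A : ℝ) ^ (1 - δ))] with n hn
  have h0 : 0 < v n := lt_of_lt_of_le one_pos (hv n)
  rw [Real.mul_rpow (Nat.cast_nonneg _) h0.le, show 1 - δ / 2 = δ / 2 + (1 - δ) by ring, Real.rpow_add h0]
  exact mul_le_mul_of_nonneg_right hn (Real.rpow_nonneg h0.le _)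

/-- **Theorem.** (1) For every `k` there is `δ > 0` such that for all sequences `v ≥ 1` with `∑ v_n ^ (-δ)` finite and
almost all `γ ∈ ℝ ^ (2k)` with nonnegative coordinates: for every real `A` and all large `n` the shift vector `v_n γ` has
`|∫_0^S (Z(t) - Q_k(t)) dt| ≤ v_n ^ (1 - δ)` for all `0 ≤ S ≤ A v_n`. (2) Let `k ≤ 4`. There is `δ > 0` such that for all
sequences `v ≥ 1` with `∑ v_n ^ (-δ)` finite, all countable sets `U ⊆ ℝ ^ k` and `V ⊆ ℝ` and almost all `β ∈ ℝ ^ k` with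
nonnegative coordinates: for all `α ∈ U`, all `c ≥ 0` in `V` and all large `n` the shifts `α` (fixed) and `v_n β` satisfy
`|∫_0^{c v_n} Z(t) dt - c v_n ζ_{(α, v_n β)}(1/2)| ≤ v_n ^ (1 - δ)` and, if the coordinates of `α` are distinct,
`|∫_0^{c v_n} (Z(t) - Q_k(t)) dt| ≤ v_n ^ (1 - δ)`. (3) `∑ v_n ^ (-δ)` is finite for `v_n = b ^ n`, `b > 1`. -/
theorem result :
    (∀ k : ℕ, ∃ δ : ℝ, 0 < δ ∧ ∀ v : ℕ → ℝ, (∀ n, 1 ≤ v n) → (Summable fun n => (v n) ^ (-δ)) →
      ∀ᵐ γ : Fin k ⊕ Fin k → ℝ, (∀ i, 0 ≤ γ i) → ∀ A : ℝ, ∀ᶠ n in atTop, ∀ S : ℝ, 0 ≤ S → S ≤ A * v n →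
        ‖∫ t in (0:ℝ)..S, (Z (v n • γ) t - Q (v n • γ) t)‖ ≤ (v n) ^ (1 - δ)) ∧
    (∀ k : ℕ, k ≤ 4 → ∃ δ : ℝ, 0 < δ ∧ ∀ v : ℕ → ℝ, (∀ n, 1 ≤ v n) → (Summable fun n => (v n) ^ (-δ)) →
      ∀ U : Set (Fin k → ℝ), U.Countable → ∀ V : Set ℝ, V.Countable →
      ∀ᵐ β : Fin k → ℝ, (∀ l, 0 ≤ β l) → ∀ α ∈ U, ∀ c ∈ V, 0 ≤ c → ∀ᶠ n in atTop,
        ‖(∫ t in (0:ℝ)..(c * v n), Z (Sum.elim α (v n • β)) t) - (c * v n : ℝ) * zetaAB (1 / 2) α (v n • β)‖ ≤
          (v n) ^ (1 - δ) ∧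
        (Function.Injective α →
          ‖∫ t in (0:ℝ)..(c * v n), (Z (Sum.elim α (v n • β)) t - Q (Sum.elim α (v n • β)) t)‖ ≤ (v n) ^ (1 - δ))) ∧
    (∀ b δ : ℝ, 1 < b → 0 < δ → Summable fun n : ℕ => ((b ^ n : ℝ)) ^ (-δ)) := by
  refine ⟨fun k => ?_, fun k hk => ?_, fun b δ hb hδ => ?_⟩
  · obtain ⟨-, δ, hδ, T₀, h⟩ := GenericShifts.result k
    refine ⟨δ / 2, by linarith, fun v hv hs => ?_⟩
    have hs' := summable_of hδ hv hs
    have ht := tendsto_v (half_pos hδ) hv hs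
    have hall : ∀ᵐ γ : Fin k ⊕ Fin k → ℝ, ∀ A : ℕ, 1 ≤ A → ∀ᶠ n in atTop, T₀ ≤ A * v n →
        v n • γ ∉ {γ : Fin k ⊕ Fin k → ℝ | (∀ i, 0 ≤ γ i ∧ γ i ≤ A * v n) ∧
          ∃ S : ℝ, 0 ≤ S ∧ S ≤ A * v n ∧ (A * v n) ^ (1 - δ) < ‖∫ t in (0:ℝ)..S, (Z γ t - Q γ t)‖} := by
      rw [ae_all_iff]
      intro A
      by_cases hA : 1 ≤ A
      · filter_upwards [core hv hs' A hA (fun n => {γ : Fin k ⊕ Fin k → ℝ | (∀ i, 0 ≤ γ i ∧ γ i ≤ A * v n) ∧
          ∃ S : ℝ, 0 ≤ S ∧ S ≤ A * v n ∧ (A * v n) ^ (1 - δ) < ‖∫ t in (0:ℝ)..S, (Z γ t - Q γ t)‖})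
          (fun n hn => by
            refine (h (A * v n) hn).trans (le_of_eq ?_)
            congr 2
            rw [Fintype.card_sum, Fintype.card_fin]
            push_cast
            ring)] with γ hγ _
        exact hγ
      · exact Eventually.of_forall fun γ hA' => absurd hA' hA
    filter_upwards [hall] with γ hγ hγ0 A
    obtain ⟨A', hA'⟩ := exists_nat_ge (max A (max 1 (∑ i, |γ i|)))
    have hA1 : A ≤ A' := (le_max_left _ _).trans hA'
    have hA2 : (1 : ℝ) ≤ A' := (le_max_left _ _).trans ((le_max_right _ _).trans hA')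
    have hA3 : ∑ i, |γ i| ≤ A' := (le_max_right _ _).trans ((le_max_right _ _).trans hA')
    have hA2' : 1 ≤ A' := by exact_mod_cast hA2
    filter_upwards [hγ A' hA2', final_bound hδ hv ht A', ht.eventually_ge_atTop T₀] with n h1 h2 h3 S hS0 hS
    have hvn : 0 < v n := lt_of_lt_of_le one_pos (hv n)
    have hT : T₀ ≤ A' * v n := h3.trans (by nlinarith)
    by_contra hcon
    push Not at hcon
    refine h1 hT ⟨fun i => ⟨mul_nonneg hvn.le (hγ0 i), ?_⟩, S, hS0, hS.trans ?_, lt_of_le_of_lt h2 hcon⟩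
    · rw [Pi.smul_apply, smul_eq_mul, mul_comm]
      apply mul_le_mul_of_nonneg_right _ hvn.le
      exact (le_abs_self _).trans ((Finset.single_le_sum (f := fun i => |γ i|) (fun i _ => abs_nonneg _)
        (Finset.mem_univ i)).trans hA3)
    · exact mul_le_mul_of_nonneg_right hA1 hvn.le
  · obtain ⟨-, δ, hδ, h⟩ := HalfFixedShifts.result k hk
    refine ⟨δ / 2, by linarith, fun v hv hs U hU V hV => ?_⟩
    have hs' := summable_of hδ hv hs
    have ht := tendsto_v (half_pos hδ) hv hs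
    choose T₀ hT₀ using h
    have hall : ∀ᵐ β : Fin k → ℝ, ∀ α ∈ U, ∀ c ∈ V, 0 ≤ c → ∀ A : ℕ, 1 ≤ A → c ≤ A → ∀ᶠ n in atTop, T₀ α ≤ A * v n →
        v n • β ∉ {β : Fin k → ℝ | (∀ l, 0 ≤ β l ∧ β l ≤ A * v n) ∧
          (A * v n) ^ (1 - δ) < ‖(∫ t in (0:ℝ)..(c * v n), Z (Sum.elim α β) t) - (c * v n : ℝ) * zetaAB (1 / 2) α β‖} ∧
        (Function.Injective α → v n • β ∉ {β : Fin k → ℝ | (∀ l, 0 ≤ β l ∧ β l ≤ A * v n) ∧
          (A * v n) ^ (1 - δ) < ‖∫ t in (0:ℝ)..(c * v n), (Z (Sum.elim α β) t - Q (Sum.elim α β) t)‖}) := by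
      rw [ae_ball_iff hU]
      intro α _
      rw [ae_ball_iff hV]
      intro c _
      by_cases hc0 : 0 ≤ c
      swap
      · exact Eventually.of_forall fun β h0 => absurd h0 hc0
      have hA' : ∀ A : ℕ, ∀ᵐ β : Fin k → ℝ, 1 ≤ A → c ≤ A → ∀ᶠ n in atTop, T₀ α ≤ A * v n →
        v n • β ∉ {β : Fin k → ℝ | (∀ l, 0 ≤ β l ∧ β l ≤ A * v n) ∧
          (A * v n) ^ (1 - δ) < ‖(∫ t in (0:ℝ)..(c * v n), Z (Sum.elim α β) t) - (c * v n : ℝ) * zetaAB (1 / 2) α β‖} ∧
        (Function.Injective α → v n • β ∉ {β : Fin k → ℝ | (∀ l, 0 ≤ β l ∧ β l ≤ A * v n) ∧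
          (A * v n) ^ (1 - δ) < ‖∫ t in (0:ℝ)..(c * v n), (Z (Sum.elim α β) t - Q (Sum.elim α β) t)‖}) := by
        intro A
        by_cases hA : 1 ≤ A ∧ c ≤ A
        swap
        · exact Eventually.of_forall fun β g1 g2 => absurd ⟨g1, g2⟩ hA
        have hS : ∀ n, c * v n ≤ A * v n := fun n => mul_le_mul_of_nonneg_right hA.2 (by linarith [hv n])
        have hS0 : ∀ n, 0 ≤ c * v n := fun n => mul_nonneg hc0 (by linarith [hv n])
        have e1 := core hv hs' A hA.1 (T₀ := T₀ α) (fun n => {β : Fin k → ℝ | (∀ l, 0 ≤ β l ∧ β l ≤ A * v n) ∧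
          (A * v n) ^ (1 - δ) < ‖(∫ t in (0:ℝ)..(c * v n), Z (Sum.elim α β) t) - (c * v n : ℝ) * zetaAB (1 / 2) α β‖})
          (fun n hn => by
            refine ((hT₀ α (A * v n) hn (c * v n) (hS0 n) (hS n)).1).trans (le_of_eq ?_)
            rw [Fintype.card_fin])
        by_cases hinj : Function.Injective α
        · have e2 := core hv hs' A hA.1 (T₀ := T₀ α) (fun n => {β : Fin k → ℝ | (∀ l, 0 ≤ β l ∧ β l ≤ A * v n) ∧
            (A * v n) ^ (1 - δ) < ‖∫ t in (0:ℝ)..(c * v n), (Z (Sum.elim α β) t - Q (Sum.elim α β) t)‖})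
            (fun n hn => by
              refine ((hT₀ α (A * v n) hn (c * v n) (hS0 n) (hS n)).2 hinj).trans (le_of_eq ?_)
              rw [Fintype.card_fin])
          filter_upwards [e1, e2] with β h1 h2 _ _
          filter_upwards [h1, h2] with n g1 g2 hT
          exact ⟨g1 hT, fun _ => g2 hT⟩
        · filter_upwards [e1] with β h1 _ _
          filter_upwards [h1] with n g1 hT
          exact ⟨g1 hT, fun hi => absurd hi hinj⟩
      filter_upwards [ae_all_iff.2 hA'] with β hβ _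
      exact hβ
    filter_upwards [hall] with β hβ hβ0 α hα c hc hc0
    obtain ⟨A', hA'⟩ := exists_nat_ge (max c (max 1 (∑ i, |β i|)))
    have hA1 : c ≤ A' := (le_max_left _ _).trans hA'
    have hA2 : (1 : ℝ) ≤ A' := (le_max_left _ _).trans ((le_max_right _ _).trans hA')
    have hA3 : ∑ i, |β i| ≤ A' := (le_max_right _ _).trans ((le_max_right _ _).trans hA')
    have hA2' : 1 ≤ A' := by exact_mod_cast hA2
    filter_upwards [hβ α hα c hc hc0 A' hA2' hA1, final_bound hδ hv ht A', ht.eventually_ge_atTop (T₀ α)]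
      with n h1 h2 h3
    have hvn : 0 < v n := lt_of_lt_of_le one_pos (hv n)
    have hT : T₀ α ≤ A' * v n := h3.trans (by nlinarith)
    obtain ⟨g1, g2⟩ := h1 hT
    have hbox : ∀ l, 0 ≤ (v n • β) l ∧ (v n • β) l ≤ A' * v n := by
      intro l
      refine ⟨mul_nonneg hvn.le (hβ0 l), ?_⟩
      rw [Pi.smul_apply, smul_eq_mul, mul_comm]
      apply mul_le_mul_of_nonneg_right _ hvn.le
      exact (le_abs_self _).trans ((Finset.single_le_sum (f := fun i => |β i|) (fun i _ => abs_nonneg _)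
        (Finset.mem_univ l)).trans hA3)
    refine ⟨?_, fun hi => ?_⟩
    · by_contra hcon
      push Not at hcon
      exact g1 ⟨hbox, lt_of_le_of_lt h2 hcon⟩
    · by_contra hcon
      push Not at hcon
      exact g2 hi ⟨hbox, lt_of_le_of_lt h2 hcon⟩
  · have hb0 : (0 : ℝ) < b := by linarith
    have h1 : (fun n : ℕ => ((b ^ n : ℝ)) ^ (-δ)) = fun n : ℕ => (b ^ (-δ)) ^ n := by
      funext n
      rw [← Real.rpow_natCast, ← Real.rpow_mul hb0.le, ← Real.rpow_natCast, ← Real.rpow_mul hb0.le, mul_comm]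
    rw [h1]
    apply summable_geometric_of_lt_one (Real.rpow_nonneg hb0.le _)
    exact Real.rpow_lt_one_of_one_lt_of_neg hb (by linarith)

end

end Pool.Agent.Results.MP_fa2474_nt.AlmostAllDirections
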