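import Pool.Agent.Helper271.Rays
import Pool.Agent.Results.MP_fa2474_nt.GenericShifts

set_option autoImplicit false

/-!
# Shifted moments of zeta of every order along almost every direction of the shifts

Let `Z_γ(t)`, `Q_γ(t)`, `γ = (α, β) ∈ ℝ^(2k)`, be the product of `2k` values of the Riemann zeta function
and the full prediction of the recipe of Conrey, Farmer, Keating, Rubinstein and Snaith (definitions of
the starting file GenericShifts). The recipe predicts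
`∫_0^S (Z_γ(t) - Q_γ(t)) dt = O(T^(1-δ))` for `S` and the shifts of size `O(T)`. We prove, for every `k`,
that for almost every direction `ω` in the cone of the vectors with nonnegative coordinates this holds
for the shifts `T ω` for all but at most `X^(1-δ)` of the integers `T ≤ X`, for all large `X`.
-/

namespace Pool.Agent.Results.MP_fa2474_nt.AlmostEveryDirection

open Complex MeasureTheory Filter Topology
open Pool.Agent.Results.MP_fa2474_nt.GenericShifts (Z Q)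
open Pool.Agent.Helper271.Rays

noncomputable section

variable {k : ℕ}

/-- The integral over `[0, S]` of the difference between the product `Z` of zeta values and the full
prediction `Q` of the recipe, at the shift vector `γ = (α, β)`. -/
def D (γ : Fin k ⊕ Fin k → ℝ) (S : ℝ) : ℂ := ∫ t in (0:ℝ)..S, (Z γ t - Q γ t)

/-- the exceptional shift vectors of size at most `T` -/
def Bad (k : ℕ) (δ T : ℝ) : Set (Fin k ⊕ Fin k → ℝ) :=
  {γ | (∀ i, 0 ≤ γ i ∧ γ i ≤ T) ∧ ∃ S : ℝ, 0 ≤ S ∧ S ≤ T ∧ T ^ (1 - δ) < ‖D γ S‖}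

/-- the threshold -/
lemma thr {δ₀ δ₁ C x : ℝ} {m : ℕ} {ω : Fin k ⊕ Fin k → ℝ} (hδ₁ : 0 < δ₁) (h10 : δ₁ ≤ δ₀)
    (hω0 : ∀ i, 0 ≤ ω i) (hm : |C| + ∑ i, ω i ≤ m) (hx : 1 ≤ x) (h2 : (m : ℝ) + 1 ≤ x ^ (3 * δ₁ / 4))
    (h1 : x • ω ∉ Bad k δ₀ (((m : ℝ) + 1) * x)) {S : ℝ} (hS0 : 0 ≤ S) (hS1 : S ≤ C * x) :
    ‖D (x • ω) S‖ ≤ x ^ (1 - δ₁ / 4) := by
  have hsum : 0 ≤ ∑ i, ω i := Finset.sum_nonneg fun i _ => hω0 i
  have hC := le_abs_self C
  have hCa := abs_nonneg C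
  have hx0 : 0 < x := by linarith
  have hm0 : (0 : ℝ) ≤ m := Nat.cast_nonneg m
  have hcube : ∀ i, 0 ≤ (x • ω) i ∧ (x • ω) i ≤ ((m : ℝ) + 1) * x := by
    intro i
    rw [Pi.smul_apply, smul_eq_mul]
    refine ⟨mul_nonneg hx0.le (hω0 i), ?_⟩
    rw [mul_comm]
    apply mul_le_mul_of_nonneg_right _ hx0.le
    have : ω i ≤ ∑ i, ω i := Finset.single_le_sum (fun i _ => hω0 i) (Finset.mem_univ i)
    linarith
  have h3 : ‖D (x • ω) S‖ ≤ (((m : ℝ) + 1) * x) ^ (1 - δ₀) := by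
    by_contra hcon
    push Not at hcon
    refine h1 ⟨hcube, S, hS0, hS1.trans ?_, hcon⟩
    apply mul_le_mul_of_nonneg_right _ hx0.le
    linarith
  have hMv : 1 ≤ ((m : ℝ) + 1) * x := by nlinarith
  calc ‖D (x • ω) S‖ ≤ (((m : ℝ) + 1) * x) ^ (1 - δ₀) := h3
    _ ≤ (((m : ℝ) + 1) * x) ^ (1 - δ₁) :=
        Real.rpow_le_rpow_of_exponent_le hMv (by linarith)
    _ = ((m : ℝ) + 1) ^ (1 - δ₁) * x ^ (1 - δ₁) := Real.mul_rpow (by positivity) hx0.le
    _ ≤ ((m : ℝ) + 1) ^ (1 : ℝ) * x ^ (1 - δ₁) := by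
        apply mul_le_mul_of_nonneg_right _ (by positivity)
        exact Real.rpow_le_rpow_of_exponent_le (by linarith) (by linarith)
    _ ≤ x ^ (3 * δ₁ / 4) * x ^ (1 - δ₁) := by
        rw [Real.rpow_one]
        exact mul_le_mul_of_nonneg_right h2 (by positivity)
    _ = x ^ (1 - δ₁ / 4) := by
        rw [← Real.rpow_add hx0]
        congr 1
        ring

/-- For every `k` there is `δ > 0` such that for almost every `ω` in the cone of the vectors with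
nonnegative coordinates in `ℝ^(2k)`, every `C` and all large `X`: for all integers `1 ≤ T ≤ X` with at
most `X^(1-δ)` exceptions, the difference between the integrals over `[0, S]` of `Z` and of the full
prediction `Q` at the shifts `T ω` is at most `T^(1-δ)` for all `0 ≤ S ≤ C T`. -/
theorem result (k : ℕ) : ∃ δ : ℝ, 0 < δ ∧
    ∀ᵐ ω : Fin k ⊕ Fin k → ℝ, (∀ i, 0 ≤ ω i) → ∀ C : ℝ, ∀ᶠ X : ℕ in atTop,
      ({T : ℕ | 1 ≤ T ∧ T ≤ X ∧ ¬ ∀ S : ℝ, 0 ≤ S → S ≤ C * T →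
        ‖D ((T : ℝ) • ω) S‖ ≤ (T : ℝ) ^ (1 - δ)}.ncard : ℝ) ≤ (X : ℝ) ^ (1 - δ) := by
  obtain ⟨-, δ₀, hδ₀, T₀', h⟩ := Pool.Agent.Results.MP_fa2474_nt.GenericShifts.result k
  obtain ⟨T₀, hT₀def⟩ : ∃ T₀ : ℝ, T₀ = max T₀' 1 := ⟨_, rfl⟩
  have hT₀ : 1 ≤ T₀ := by rw [hT₀def]; exact le_max_right _ _
  set δ₁ : ℝ := min δ₀ 1 with hδ₁def
  have hδ₁ : 0 < δ₁ := lt_min hδ₀ one_pos
  have hδ₁1 : δ₁ ≤ 1 := min_le_right _ _
  have h10 : δ₁ ≤ δ₀ := min_le_left _ _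
  have hB : ∀ T, T₀ ≤ T → volume (Bad k δ₀ T) ≤
      ENNReal.ofReal (T ^ ((Fintype.card (Fin k ⊕ Fin k) : ℝ) - δ₁)) := by
    intro T hT
    have hT' : T₀' ≤ T := by
      refine le_trans ?_ hT
      rw [hT₀def]
      exact le_max_left _ _
    refine (h T hT').trans (ENNReal.ofReal_le_ofReal ?_)
    apply Real.rpow_le_rpow_of_exponent_le (hT₀.trans hT)
    rw [Fintype.card_sum, Fintype.card_fin]
    push_cast
    linarith
  have hM : ∀ m : ℕ, (1 : ℝ) ≤ (m : ℝ) + 1 := fun m => by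
    have : (0 : ℝ) ≤ m := Nat.cast_nonneg m
    linarith
  refine ⟨δ₁ / 8, by positivity, ?_⟩
  · have hall := count_rays (ι := Fin k ⊕ Fin k) (B := fun _ T => Bad k δ₀ T) (T₀ := T₀)
      (M := fun m => (m : ℝ) + 1) hδ₁ hδ₁1 hM (fun _ => hB)
    filter_upwards [hall] with ω hω hω0 C
    obtain ⟨m, hm⟩ : ∃ m : ℕ, |C| + ∑ i, ω i ≤ m := exists_nat_ge _
    have htv : Tendsto (fun n : ℕ => (n : ℝ) + 1) atTop atTop :=
      tendsto_atTop_add_const_right _ _ tendsto_natCast_atTop_atTop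
    have ev : ∀ᶠ n : ℕ in atTop, (m : ℝ) + 1 ≤ ((n : ℝ) + 1) ^ (3 * δ₁ / 4) :=
      ((tendsto_rpow_atTop (by positivity)).comp htv).eventually_ge_atTop _
    refine ev_count (a := 1 - δ₁ / 4) (b := 1 - δ₁ / 8) (by linarith) (by linarith) (hω m) ?_
    filter_upwards [ev, htv.eventually_ge_atTop T₀] with n h2 h3 hP
    refine ⟨h3, ?_⟩
    by_contra h1
    apply hP
    intro S hS0 hS1
    push_cast at hS1 ⊢
    have hn1 : (1 : ℝ) ≤ (n : ℝ) + 1 := hM n
    refine (thr hδ₁ h10 hω0 hm hn1 h2 h1 hS0 hS1).trans ?_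
    exact Real.rpow_le_rpow_of_exponent_le hn1 (by linarith)

end

end Pool.Agent.Results.MP_fa2474_nt.AlmostEveryDirection
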