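import Pool.Agent.Helper271.Rays
import Pool.Agent.Results.MP_fa2474_nt.HalfFixedShifts

set_option autoImplicit false

/-!
# Shifted moments of zeta with half of the shifts fixed, for almost every direction of the others

Let `k ≤ 4`, let `Z_{α, β}(t)` and `Q_{α, β}(t)` be the product of `2k` values of the Riemann zeta
function and the full prediction of the recipe of Conrey, Farmer, Keating, Rubinstein and Snaith, and
`ζ_{(α, β)}(1/2)` its first term (definitions of the starting file HalfFixedShifts). The shifts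
`α ∈ ℝ^k` are fixed, `β = T ω`. We prove that, for every fixed `α` with distinct coordinates and for
almost every direction `ω` in the cone of the vectors with nonnegative coordinates, the recipe holds
with a power saving for all but at most `X^(1-δ)` of the integers `T ≤ X`, for all large `X`; the null
set can be chosen independent of `α` in a given countable set.
-/

namespace Pool.Agent.Results.MP_fa2474_nt.HalfFixedDirections

open Complex MeasureTheory Filter Topology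
open Pool.Agent.Results.MP_fa2474_nt.HalfFixedShifts (Z Q zetaAB)
open Pool.Agent.Helper271.Rays

noncomputable section

variable {k : ℕ}

/-- The integral over `[0, S]` of the product `Z` of zeta values, minus the first term of the recipe. -/
def D₁ (α β : Fin k → ℝ) (S : ℝ) : ℂ :=
  (∫ t in (0:ℝ)..S, Z (Sum.elim α β) t) - S * zetaAB (1 / 2) α β

/-- The integral over `[0, S]` of the difference between the product `Z` of zeta values and the full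
prediction `Q` of the recipe. -/
def D (α β : Fin k → ℝ) (S : ℝ) : ℂ :=
  ∫ t in (0:ℝ)..S, (Z (Sum.elim α β) t - Q (Sum.elim α β) t)

/-- the exceptional vectors -/
def Bad (E : (Fin k → ℝ) → ℝ → ℂ) (δ c : ℝ) (m : ℕ) (T : ℝ) : Set (Fin k → ℝ) :=
  {β | (∀ l, 0 ≤ β l ∧ β l ≤ T) ∧ T ^ (1 - δ) < ‖E β (c / (c + m + 1) * T)‖}

lemma bad_le {E : (Fin k → ℝ) → ℝ → ℂ} {δ₀ δ₁ T₀ : ℝ} (h10 : δ₁ ≤ δ₀) (hT₀ : 1 ≤ T₀)
    (h : ∀ T : ℝ, T₀ ≤ T → ∀ S : ℝ, 0 ≤ S → S ≤ T →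
      volume {β : Fin k → ℝ | (∀ l, 0 ≤ β l ∧ β l ≤ T) ∧ T ^ (1 - δ₀) < ‖E β S‖} ≤
        ENNReal.ofReal (T ^ (k - δ₀ : ℝ))) {c : ℝ} (hc : 0 ≤ c) (m : ℕ) :
    ∀ T, T₀ ≤ T → volume (Bad E δ₀ c m T) ≤
      ENNReal.ofReal (T ^ ((Fintype.card (Fin k) : ℝ) - δ₁)) := by
  intro T hT
  have hm : (0 : ℝ) ≤ m := Nat.cast_nonneg m
  have hT1 := hT₀.trans hT
  have hfrac : c / (c + m + 1) ≤ 1 := by
    rw [div_le_one (by positivity)]
    linarith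
  refine (h T hT _ (by positivity) ?_).trans (ENNReal.ofReal_le_ofReal ?_)
  · calc c / (c + m + 1) * T ≤ 1 * T := mul_le_mul_of_nonneg_right hfrac (by linarith)
      _ = T := one_mul T
  · apply Real.rpow_le_rpow_of_exponent_le hT1
    rw [Fintype.card_fin]
    linarith

lemma thr {E : (Fin k → ℝ) → ℝ → ℂ} {δ₀ δ₁ c x : ℝ} {m : ℕ} {ω : Fin k → ℝ} (hδ₁ : 0 < δ₁)
    (h10 : δ₁ ≤ δ₀) (hω0 : ∀ i, 0 ≤ ω i) (hc : 0 ≤ c) (hm : ∑ i, ω i ≤ m) (hx : 1 ≤ x)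
    (h2 : c + m + 1 ≤ x ^ (3 * δ₁ / 4)) (h1 : x • ω ∉ Bad E δ₀ c m ((c + m + 1) * x)) :
    ‖E (x • ω) (c * x)‖ ≤ x ^ (1 - δ₁ / 4) := by
  have hx0 : 0 < x := by linarith
  have hm0 : (0 : ℝ) ≤ m := Nat.cast_nonneg m
  have hM1 : 1 ≤ c + m + 1 := by linarith
  have hcube : ∀ i, 0 ≤ (x • ω) i ∧ (x • ω) i ≤ (c + m + 1) * x := by
    intro i
    rw [Pi.smul_apply, smul_eq_mul]
    refine ⟨mul_nonneg hx0.le (hω0 i), ?_⟩
    rw [mul_comm]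
    apply mul_le_mul_of_nonneg_right _ hx0.le
    have : ω i ≤ ∑ i, ω i := Finset.single_le_sum (fun i _ => hω0 i) (Finset.mem_univ i)
    linarith
  have e1 : c / (c + m + 1) * ((c + m + 1) * x) = c * x := by
    have : c + m + 1 ≠ 0 := by positivity
    field_simp
  have h3 : ‖E (x • ω) (c * x)‖ ≤ ((c + m + 1) * x) ^ (1 - δ₀) := by
    by_contra hcon
    push Not at hcon
    refine h1 ⟨hcube, ?_⟩
    rw [e1]
    exact hcon
  have hMv : 1 ≤ (c + m + 1) * x := by nlinarith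
  calc ‖E (x • ω) (c * x)‖ ≤ ((c + m + 1) * x) ^ (1 - δ₀) := h3
    _ ≤ ((c + m + 1) * x) ^ (1 - δ₁) :=
        Real.rpow_le_rpow_of_exponent_le hMv (by linarith)
    _ = (c + m + 1) ^ (1 - δ₁) * x ^ (1 - δ₁) := Real.mul_rpow (by positivity) hx0.le
    _ ≤ (c + m + 1) ^ (1 : ℝ) * x ^ (1 - δ₁) := by
        apply mul_le_mul_of_nonneg_right _ (by positivity)
        exact Real.rpow_le_rpow_of_exponent_le hM1 (by linarith)
    _ ≤ x ^ (3 * δ₁ / 4) * x ^ (1 - δ₁) := by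
        rw [Real.rpow_one]
        exact mul_le_mul_of_nonneg_right h2 (by positivity)
    _ = x ^ (1 - δ₁ / 4) := by
        rw [← Real.rpow_add hx0]
        congr 1
        ring

/-- at the integral scales -/
lemma cntp {E : (Fin k → ℝ) → ℝ → ℂ} {δ₀ δ₁ T₀ : ℝ} (hδ₁ : 0 < δ₁) (hδ₁1 : δ₁ ≤ 1) (h10 : δ₁ ≤ δ₀)
    (hT₀ : 1 ≤ T₀)
    (h : ∀ T : ℝ, T₀ ≤ T → ∀ S : ℝ, 0 ≤ S → S ≤ T →
      volume {β : Fin k → ℝ | (∀ l, 0 ≤ β l ∧ β l ≤ T) ∧ T ^ (1 - δ₀) < ‖E β S‖} ≤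
        ENNReal.ofReal (T ^ (k - δ₀ : ℝ))) :
    ∀ᵐ ω : Fin k → ℝ, (∀ i, 0 ≤ ω i) → ∀ᶠ X : ℕ in atTop,
      ({T : ℕ | 1 ≤ T ∧ T ≤ X ∧ ¬ ‖E ((T : ℝ) • ω) T‖ ≤ (T : ℝ) ^ (1 - δ₁ / 8)}.ncard : ℝ) ≤
        (X : ℝ) ^ (1 - δ₁ / 8) := by
  have hM : ∀ m : ℕ, (1 : ℝ) ≤ 1 + (m : ℝ) + 1 := fun m => by
    have : (0 : ℝ) ≤ m := Nat.cast_nonneg m
    linarith
  have hall := count_rays (ι := Fin k) (B := fun m T => Bad E δ₀ 1 m T) (T₀ := T₀)
    (M := fun m => 1 + (m : ℝ) + 1) hδ₁ hδ₁1 hM (fun m => bad_le h10 hT₀ h zero_le_one m)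
  filter_upwards [hall] with ω hω hω0
  obtain ⟨m, hm⟩ : ∃ m : ℕ, ∑ i, ω i ≤ m := exists_nat_ge _
  have htv : Tendsto (fun n : ℕ => (n : ℝ) + 1) atTop atTop :=
    tendsto_atTop_add_const_right _ _ tendsto_natCast_atTop_atTop
  have ev : ∀ᶠ n : ℕ in atTop, 1 + (m : ℝ) + 1 ≤ ((n : ℝ) + 1) ^ (3 * δ₁ / 4) :=
    ((tendsto_rpow_atTop (by positivity)).comp htv).eventually_ge_atTop _
  refine ev_count (a := 1 - δ₁ / 4) (b := 1 - δ₁ / 8) (by linarith) (by linarith) (hω m) ?_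
  filter_upwards [ev, htv.eventually_ge_atTop T₀] with n h2 h3 hP
  refine ⟨h3, ?_⟩
  by_contra h1
  apply hP
  have hn1 : (1 : ℝ) ≤ (n : ℝ) + 1 := by
    have : (0 : ℝ) ≤ n := Nat.cast_nonneg n
    linarith
  have h4 := thr hδ₁ h10 hω0 zero_le_one hm hn1 h2 h1
  rw [one_mul] at h4
  push_cast
  exact h4.trans (Real.rpow_le_rpow_of_exponent_le hn1 (by linarith))

/-- Let `k ≤ 4`. There is `δ > 0` such that for every countable set `A` of vectors `α ∈ ℝ^k` and almost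
every `ω` with nonnegative coordinates, for all `α ∈ A` and all large `X`: for all integers
`1 ≤ T ≤ X` with at most `X^(1-δ)` exceptions `D₁` with `S = T`, at the shifts `(α, T ω)`, is at most
`T^(1-δ)`; and if the coordinates of `α` are distinct, this holds for `D` also. -/
theorem result (k : ℕ) (hk : k ≤ 4) : ∃ δ : ℝ, 0 < δ ∧
    ∀ A : Set (Fin k → ℝ), A.Countable → ∀ᵐ ω : Fin k → ℝ, (∀ i, 0 ≤ ω i) → ∀ α ∈ A,
      (∀ᶠ X : ℕ in atTop, ({T : ℕ | 1 ≤ T ∧ T ≤ X ∧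
        ¬ ‖D₁ α ((T : ℝ) • ω) T‖ ≤ (T : ℝ) ^ (1 - δ)}.ncard : ℝ) ≤ (X : ℝ) ^ (1 - δ)) ∧
      (Function.Injective α → ∀ᶠ X : ℕ in atTop, ({T : ℕ | 1 ≤ T ∧ T ≤ X ∧
        ¬ ‖D α ((T : ℝ) • ω) T‖ ≤ (T : ℝ) ^ (1 - δ)}.ncard : ℝ) ≤ (X : ℝ) ^ (1 - δ)) := by
  obtain ⟨-, δ₀, hδ₀, h⟩ := Pool.Agent.Results.MP_fa2474_nt.HalfFixedShifts.result k hk
  set δ₁ : ℝ := min δ₀ 1 with hδ₁def
  have hδ₁ : 0 < δ₁ := lt_min hδ₀ one_pos
  have hδ₁1 : δ₁ ≤ 1 := min_le_right _ _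
  have h10 : δ₁ ≤ δ₀ := min_le_left _ _
  refine ⟨δ₁ / 8, by positivity, fun A hA => ?_⟩
  · have key : ∀ᵐ ω : Fin k → ℝ, ∀ α ∈ A, (∀ i, 0 ≤ ω i) →
        (∀ᶠ X : ℕ in atTop, ({T : ℕ | 1 ≤ T ∧ T ≤ X ∧
          ¬ ‖D₁ α ((T : ℝ) • ω) T‖ ≤ (T : ℝ) ^ (1 - δ₁ / 8)}.ncard : ℝ) ≤ (X : ℝ) ^ (1 - δ₁ / 8)) ∧
        (Function.Injective α → ∀ᶠ X : ℕ in atTop, ({T : ℕ | 1 ≤ T ∧ T ≤ X ∧
          ¬ ‖D α ((T : ℝ) • ω) T‖ ≤ (T : ℝ) ^ (1 - δ₁ / 8)}.ncard : ℝ) ≤ (X : ℝ) ^ (1 - δ₁ / 8)) := by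
      rw [ae_ball_iff hA]
      intro α hα
      obtain ⟨T₀, hT₀⟩ := h α
      have a1 := cntp (E := D₁ α) hδ₁ hδ₁1 h10 (le_max_right T₀ 1)
        (fun T hT S hS0 hST => (hT₀ T ((le_max_left _ _).trans hT) S hS0 hST).1)
      by_cases hinj : Function.Injective α
      · have a2 := cntp (E := D α) hδ₁ hδ₁1 h10 (le_max_right T₀ 1)
          (fun T hT S hS0 hST => (hT₀ T ((le_max_left _ _).trans hT) S hS0 hST).2 hinj)
        filter_upwards [a1, a2] with ω b1 b2 hω0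
        exact ⟨b1 hω0, fun _ => b2 hω0⟩
      · filter_upwards [a1] with ω b1 hω0
        exact ⟨b1 hω0, fun hi => absurd hi hinj⟩
    filter_upwards [key] with ω hω hω0 α hα
    exact hω α hα hω0

end

end Pool.Agent.Results.MP_fa2474_nt.HalfFixedDirections
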