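import Pool.Agent.Helper271.Rays
import Pool.Agent.Results.MP_fa2474_nt.GenericPairs

set_option autoImplicit false

/-!
# Shifted moments of zeta with square root remainder, for almost every direction of the shifts

The shifted moments of order `2k` of the Riemann zeta function with `α = β = (0, c_1, …, c_n)`,
`k = n + 1`, that is, the integrals of `|ζ(1/2 + it)|² ∏_j |ζ(1/2 + i (t + c_j))|²`, compared with the sum
of the swaps of pairs of the recipe (definitions of the starting file GenericPairs), for `c = T ω`. We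
prove that the difference is `O(T^(1/2 + ε))` for every `ε > 0` for almost every direction `ω` in the cone
of the vectors with nonnegative coordinates: for all members `T` of any sequence of exponent of
convergence zero, for example `T = b^m`, `b > 1`, from some point on; and for all but at most `X^(1-δ)`
of the integers `T ≤ X`, `δ = δ(n, ε) > 0`, for all large `X`.
-/

namespace Pool.Agent.Results.MP_fa2474_nt.PairsDirections

open Complex MeasureTheory Filter Topology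
open Pool.Agent.Results.MP_fa2474_nt.GenericPairs (Z shifts mainTerm)
open Pool.Agent.Helper271.Rays

noncomputable section

variable {n : ℕ}

/-- The shifted moment over `[0, S]` with `α = β = (0, c_1, …, c_n)`, minus the integral of the main
term (the sum over the swaps of pairs of the recipe). -/
def D (c : Fin n → ℝ) (S : ℝ) : ℂ :=
  (∫ t in (0:ℝ)..S, Z (shifts c) (shifts c) t) - ∫ t in (0:ℝ)..S, mainTerm c t

/-- the exceptional vectors -/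
def Bad (E : (Fin n → ℝ) → ℝ → ℂ) (a c : ℝ) (q : ℕ) (T : ℝ) : Set (Fin n → ℝ) :=
  {x | (∀ l, 0 ≤ x l ∧ x l ≤ T) ∧ T ^ a < ‖E x (c / (c + q + 1) * T)‖}

lemma bad_le {E : (Fin n → ℝ) → ℝ → ℂ} {δ δ₁ T₀ a : ℝ} (h10 : δ₁ ≤ δ) (hT₀ : 1 ≤ T₀)
    (h : ∀ T S : ℝ, T₀ ≤ T → 0 ≤ S → S ≤ T →
      volume {c : Fin n → ℝ | (∀ l, 0 ≤ c l ∧ c l ≤ T) ∧ T ^ a < ‖E c S‖} ≤
        ENNReal.ofReal (T ^ (n - δ : ℝ))) {c : ℝ} (hc : 0 ≤ c) (q : ℕ) :
    ∀ T, T₀ ≤ T → volume (Bad E a c q T) ≤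
      ENNReal.ofReal (T ^ ((Fintype.card (Fin n) : ℝ) - δ₁)) := by
  intro T hT
  have hm : (0 : ℝ) ≤ q := Nat.cast_nonneg q
  have hT1 := hT₀.trans hT
  have hfrac : c / (c + q + 1) ≤ 1 := by
    rw [div_le_one (by positivity)]
    linarith
  refine (h T _ hT (by positivity) ?_).trans (ENNReal.ofReal_le_ofReal ?_)
  · calc c / (c + q + 1) * T ≤ 1 * T := mul_le_mul_of_nonneg_right hfrac (by linarith)
      _ = T := one_mul T
  · apply Real.rpow_le_rpow_of_exponent_le hT1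
    rw [Fintype.card_fin]
    linarith

lemma thr {E : (Fin n → ℝ) → ℝ → ℂ} {a b c x : ℝ} {q : ℕ} {ω : Fin n → ℝ}
    (hω0 : ∀ i, 0 ≤ ω i) (hc : 0 ≤ c) (hq : ∑ i, ω i ≤ q) (hx : 1 ≤ x)
    (h2 : (c + q + 1) ^ a ≤ x ^ (b - a)) (h1 : x • ω ∉ Bad E a c q ((c + q + 1) * x)) :
    ‖E (x • ω) (c * x)‖ ≤ x ^ b := by
  have hx0 : 0 < x := by linarith
  have hq0 : (0 : ℝ) ≤ q := Nat.cast_nonneg q
  have hcube : ∀ i, 0 ≤ (x • ω) i ∧ (x • ω) i ≤ (c + q + 1) * x := by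
    intro i
    rw [Pi.smul_apply, smul_eq_mul]
    refine ⟨mul_nonneg hx0.le (hω0 i), ?_⟩
    rw [mul_comm]
    apply mul_le_mul_of_nonneg_right _ hx0.le
    have : ω i ≤ ∑ i, ω i := Finset.single_le_sum (fun i _ => hω0 i) (Finset.mem_univ i)
    linarith
  have e1 : c / (c + q + 1) * ((c + q + 1) * x) = c * x := by
    have : c + q + 1 ≠ 0 := by positivity
    field_simp
  have h3 : ‖E (x • ω) (c * x)‖ ≤ ((c + q + 1) * x) ^ a := by
    by_contra hcon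
    push Not at hcon
    refine h1 ⟨hcube, ?_⟩
    rw [e1]
    exact hcon
  calc ‖E (x • ω) (c * x)‖ ≤ ((c + q + 1) * x) ^ a := h3
    _ = (c + q + 1) ^ a * x ^ a := Real.mul_rpow (by positivity) hx0.le
    _ ≤ x ^ (b - a) * x ^ a := mul_le_mul_of_nonneg_right h2 (by positivity)
    _ = x ^ b := by
        rw [← Real.rpow_add hx0]
        congr 1
        ring

/-- along a sequence -/
lemma seqp {E : (Fin n → ℝ) → ℝ → ℂ} {δ T₀ a b : ℝ} (hδ : 0 < δ) (hab : a < b) (hT₀ : 1 ≤ T₀)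
    (h : ∀ T S : ℝ, T₀ ≤ T → 0 ≤ S → S ≤ T →
      volume {c : Fin n → ℝ | (∀ l, 0 ≤ c l ∧ c l ≤ T) ∧ T ^ a < ‖E c S‖} ≤
        ENNReal.ofReal (T ^ (n - δ : ℝ)))
    {v : ℕ → ℝ} (hv : ∀ m, 1 ≤ v m) (hs : Summable (fun m => (v m) ^ (-δ))) {c : ℝ} (hc : 0 ≤ c) :
    ∀ᵐ ω : Fin n → ℝ, (∀ i, 0 ≤ ω i) → ∀ᶠ m in atTop,
      ‖E (v m • ω) (c * v m)‖ ≤ (v m) ^ b := by
  have hall : ∀ᵐ ω : Fin n → ℝ, ∀ q : ℕ, ∀ᶠ m in atTop,
      v m • ω ∉ Bad E a c q ((c + q + 1) * v m) := by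
    rw [ae_all_iff]
    intro q
    exact bc hδ (bad_le le_rfl hT₀ h hc q) hv hs (by
      have : (0 : ℝ) ≤ q := Nat.cast_nonneg q
      linarith)
  have htv := tendsto_of hδ hv hs
  filter_upwards [hall] with ω hω hω0
  obtain ⟨q, hq⟩ : ∃ q : ℕ, ∑ i, ω i ≤ q := exists_nat_ge _
  have ev : ∀ᶠ m in atTop, (c + q + 1) ^ a ≤ (v m) ^ (b - a) :=
    ((tendsto_rpow_atTop (by linarith)).comp htv).eventually_ge_atTop _
  filter_upwards [hω q, ev] with m h1 h2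
  exact thr hω0 hc hq (hv m) h2 h1

/-- at the integral scales -/
lemma cntp {E : (Fin n → ℝ) → ℝ → ℂ} {δ δ₁ T₀ a b : ℝ} (hδ₁ : 0 < δ₁) (hδ₁1 : δ₁ ≤ 1) (h10 : δ₁ ≤ δ)
    (hab : a < b) (hT₀ : 1 ≤ T₀)
    (h : ∀ T S : ℝ, T₀ ≤ T → 0 ≤ S → S ≤ T →
      volume {c : Fin n → ℝ | (∀ l, 0 ≤ c l ∧ c l ≤ T) ∧ T ^ a < ‖E c S‖} ≤
        ENNReal.ofReal (T ^ (n - δ : ℝ))) :
    ∀ᵐ ω : Fin n → ℝ, (∀ i, 0 ≤ ω i) → ∀ᶠ X : ℕ in atTop,
      ({T : ℕ | 1 ≤ T ∧ T ≤ X ∧ ¬ ‖E ((T : ℝ) • ω) T‖ ≤ (T : ℝ) ^ b}.ncard : ℝ) ≤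
        (X : ℝ) ^ (1 - δ₁ / 8) := by
  have hM : ∀ q : ℕ, (1 : ℝ) ≤ 1 + (q : ℝ) + 1 := fun q => by
    have : (0 : ℝ) ≤ q := Nat.cast_nonneg q
    linarith
  have hall := count_rays (ι := Fin n) (B := fun q T => Bad E a 1 q T) (T₀ := T₀)
    (M := fun q => 1 + (q : ℝ) + 1) hδ₁ hδ₁1 hM (fun q => bad_le h10 hT₀ h zero_le_one q)
  filter_upwards [hall] with ω hω hω0
  obtain ⟨q, hq⟩ : ∃ q : ℕ, ∑ i, ω i ≤ q := exists_nat_ge _
  have htv : Tendsto (fun m : ℕ => (m : ℝ) + 1) atTop atTop :=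
    tendsto_atTop_add_const_right _ _ tendsto_natCast_atTop_atTop
  have ev : ∀ᶠ m : ℕ in atTop, (1 + (q : ℝ) + 1) ^ a ≤ ((m : ℝ) + 1) ^ (b - a) :=
    ((tendsto_rpow_atTop (by linarith)).comp htv).eventually_ge_atTop _
  refine ev_count (a := 1 - δ₁ / 4) (b := 1 - δ₁ / 8) (by linarith) (by linarith) (hω q) ?_
  filter_upwards [ev, htv.eventually_ge_atTop T₀] with m h2 h3 hP
  refine ⟨h3, ?_⟩
  by_contra h1
  apply hP
  have hn1 : (1 : ℝ) ≤ (m : ℝ) + 1 := by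
    have : (0 : ℝ) ≤ m := Nat.cast_nonneg m
    linarith
  have h4 := thr (b := b) hω0 zero_le_one hq hn1 h2 h1
  rw [one_mul] at h4
  push_cast
  exact h4

/-- (1) Along every sequence `v_m ≥ 1` of exponent of convergence zero (`∑ v_m^(-s) < ∞` for all
`s > 0`), for every countable set `R` of real numbers and almost every `ω ∈ ℝ^n` with nonnegative
coordinates, for all `ε > 0` and all `0 ≤ c ∈ R`: the shifted moment over `[0, c v_m]` with
`α = β = (0, v_m ω)` differs from its main term by at most `v_m^(1/2 + ε)` from some `m` on.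
(2) For every `ε > 0` there is `δ > 0` such that for almost every `ω` with nonnegative coordinates and
all large `X`, for all integers `1 ≤ T ≤ X` with at most `X^(1-δ)` exceptions, the shifted moment over
`[0, T]` with `α = β = (0, T ω)` differs from its main term by at most `T^(1/2 + ε)`. -/
theorem result (n : ℕ) :
    (∀ v : ℕ → ℝ, (∀ m, 1 ≤ v m) → (∀ s : ℝ, 0 < s → Summable (fun m => (v m) ^ (-s))) →
      ∀ R : Set ℝ, R.Countable → ∀ᵐ ω : Fin n → ℝ, (∀ i, 0 ≤ ω i) → ∀ ε : ℝ, 0 < ε →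
        ∀ c ∈ R, 0 ≤ c → ∀ᶠ m in atTop, ‖D (v m • ω) (c * v m)‖ ≤ (v m) ^ (1 / 2 + ε)) ∧
    (∀ ε : ℝ, 0 < ε → ∃ δ : ℝ, 0 < δ ∧ ∀ᵐ ω : Fin n → ℝ, (∀ i, 0 ≤ ω i) →
      ∀ᶠ X : ℕ in atTop, ({T : ℕ | 1 ≤ T ∧ T ≤ X ∧
        ¬ ‖D ((T : ℝ) • ω) T‖ ≤ (T : ℝ) ^ (1 / 2 + ε)}.ncard : ℝ) ≤ (X : ℝ) ^ (1 - δ)) := by
  have h := Pool.Agent.Results.MP_fa2474_nt.GenericPairs.result n
  refine ⟨fun v hv hs R hR => ?_, fun ε hε => ?_⟩
  · have hall : ∀ᵐ ω : Fin n → ℝ, ∀ j : ℕ, ∀ c ∈ R, 0 ≤ c → (∀ i, 0 ≤ ω i) →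
        ∀ᶠ m in atTop, ‖D (v m • ω) (c * v m)‖ ≤ (v m) ^ (1 / 2 + 1 / ((j : ℝ) + 1)) := by
      rw [ae_all_iff]
      intro j
      rw [ae_ball_iff hR]
      intro c _
      by_cases hc0 : 0 ≤ c
      · have hj : 0 < 1 / ((j : ℝ) + 1) := by positivity
        obtain ⟨δ, T₀, hδ, hT₀⟩ := h (1 / ((j : ℝ) + 1) / 2) (by positivity)
        have a1 := seqp (E := D (n := n)) (a := 1 / 2 + 1 / ((j : ℝ) + 1) / 2)
          (b := 1 / 2 + 1 / ((j : ℝ) + 1)) hδ (by linarith) (le_max_right T₀ 1)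
          (fun T S hT hS0 hST => hT₀ T S ((le_max_left _ _).trans hT) hS0 hST) hv (hs δ hδ) hc0
        filter_upwards [a1] with ω b1 _ hω0
        exact b1 hω0
      · exact Eventually.of_forall fun ω h' => absurd h' hc0
    filter_upwards [hall] with ω hω hω0 ε hε c hc hc0
    obtain ⟨j, hj⟩ := exists_nat_one_div_lt hε
    filter_upwards [hω j c hc hc0 hω0] with m hm
    exact hm.trans (Real.rpow_le_rpow_of_exponent_le (hv m) (by linarith))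
  · obtain ⟨δ₀, T₀, hδ₀, hT₀⟩ := h (ε / 2) (by positivity)
    have hδ₁ : 0 < min δ₀ 1 := lt_min hδ₀ one_pos
    refine ⟨min δ₀ 1 / 8, by positivity, ?_⟩
    exact cntp (E := D (n := n)) (a := 1 / 2 + ε / 2) (b := 1 / 2 + ε) hδ₁ (min_le_right _ _)
      (min_le_left _ _) (by linarith) (le_max_right T₀ 1)
      (fun T S hT hS0 hST => hT₀ T S ((le_max_left _ _).trans hT) hS0 hST)

end

end Pool.Agent.Results.MP_fa2474_nt.PairsDirections
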